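import Mathlib
import Pool.Agent.Helper42.LynessQDiv

/-! For every field `k` and every nonzero `q` in `k` that is not a root of unity, the automorphism
`x ↦ y`, `y ↦ x⁻¹ (y + q⁻¹)` of the `q`-division ring `D = k_q(x,y)` has order five and its
fixed ring is isomorphic to `D` as a `k`-algebra. -/

universe u v

namespace Pool.Agent.Results.MP_fd4dc8_al.FixedRingIso

/-- `D` is the division ring of fractions of the quantum plane `k_q[x,y]`, generated by `x` and `y`:
`x y = q y x`, the monomials `x ^ i * y ^ j` are linearly independent over `k` (so the subalgebra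
generated by `x` and `y` is the quantum plane), and every element of `D` is a left fraction of
elements of that subalgebra. -/
def IsQDivisionRing (k : Type u) [Field k] (q : k) {D : Type v} [DivisionRing D] [Algebra k D]
    (x y : D) : Prop :=
  x * y = q • (y * x) ∧
  LinearIndependent k (fun p : ℕ × ℕ => x ^ p.1 * y ^ p.2) ∧
  ∀ d : D, ∃ r ∈ Algebra.adjoin k ({x, y} : Set D), ∃ s ∈ Algebra.adjoin k ({x, y} : Set D),
    s ≠ 0 ∧ d = s⁻¹ * r

/-- The fixed ring `D^π`, as a subalgebra of `D`. -/
def fixedRing {k : Type u} [Field k] {D : Type v} [DivisionRing D] [Algebra k D]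
    (π : D ≃ₐ[k] D) : Subalgebra k D where
  carrier := {d | π d = d}
  mul_mem' := fun {a b} ha hb => (map_mul π a b).trans (congrArg₂ (· * ·) ha hb)
  add_mem' := fun {a b} ha hb => (map_add π a b).trans (congrArg₂ (· + ·) ha hb)
  algebraMap_mem' := fun c => π.commutes c

section Transfer

open Pool.Agent.Helper42 Pool.Agent.Helper42.QDiv Pool.Agent.Helper42.LynessQDiv

variable {k : Type u} [Field k] {q : kˣ}

theorem isQDivisionRing_QDiv : IsQDivisionRing k (q : k) (QDiv.x k q) (QDiv.y k q) := by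
  refine ⟨x_mul_y, ?_, ?_⟩
  · have h := (QuantumPlane.linearIndependent_mono (k := k) (q := q)).map'
      (incl : QuantumPlane k q →ₐ[k] QDiv k q).toLinearMap
      (LinearMap.ker_eq_bot.mpr incl_injective)
    have h2 : (fun p : ℕ × ℕ => QDiv.x k q ^ p.1 * QDiv.y k q ^ p.2) =
        (incl : QuantumPlane k q →ₐ[k] QDiv k q).toLinearMap ∘ QuantumPlane.mono k q := by
      funext p
      simp [QuantumPlane.mono, QDiv.x, QDiv.y]
    rw [h2]
    exact h
  · intro d
    obtain ⟨s, r, hs, rfl⟩ := exists_frac' d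
    exact ⟨incl r, incl_mem_adjoin r, incl s, incl_mem_adjoin s, incl_ne_zero hs, rfl⟩

variable {D : Type v} [DivisionRing D] [Algebra k D] {x y : D}

theorem ne_zero_left (h : IsQDivisionRing k (q : k) x y) : x ≠ 0 := by
  have := h.2.1.ne_zero (1, 0)
  simpa using this

theorem ne_zero_right (h : IsQDivisionRing k (q : k) x y) : y ≠ 0 := by
  have := h.2.1.ne_zero (0, 1)
  simpa using this

/-- The comparison isomorphism. -/
noncomputable def compareHom (hq : ∀ n : ℕ, 0 < n → q ^ n ≠ 1)
    (h : IsQDivisionRing k (q : k) x y) : QDiv k q →ₐ[k] D :=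
  QDiv.lift hq x y (ne_zero_left h) (ne_zero_right h) h.1

theorem compareHom_bijective (hq : ∀ n : ℕ, 0 < n → q ^ n ≠ 1)
    (h : IsQDivisionRing k (q : k) x y) : Function.Bijective (compareHom hq h) := by
  refine ⟨(compareHom hq h).toRingHom.injective, ?_⟩
  have hadj : ∀ r ∈ Algebra.adjoin k ({x, y} : Set D), ∃ r', compareHom hq h r' = r := by
    intro r hr
    have hle : Algebra.adjoin k ({x, y} : Set D) ≤ (compareHom hq h).range := by
      rw [Algebra.adjoin_le_iff]
      rintro _ (rfl | rfl)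
      · exact ⟨QDiv.x k q, lift_x hq _ _ (ne_zero_left h) (ne_zero_right h) h.1⟩
      · exact ⟨QDiv.y k q, lift_y hq _ _ (ne_zero_left h) (ne_zero_right h) h.1⟩
    exact hle hr
  intro d
  obtain ⟨r, hr, s, hs, -, rfl⟩ := h.2.2 d
  obtain ⟨r', rfl⟩ := hadj r hr
  obtain ⟨s', rfl⟩ := hadj s hs
  exact ⟨s'⁻¹ * r', by rw [map_mul, map_inv₀]⟩

/-- The comparison isomorphism. -/
noncomputable def compareEquiv (hq : ∀ n : ℕ, 0 < n → q ^ n ≠ 1)
    (h : IsQDivisionRing k (q : k) x y) : QDiv k q ≃ₐ[k] D :=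
  AlgEquiv.ofBijective (compareHom hq h) (compareHom_bijective hq h)

theorem compareEquiv_x (hq : ∀ n : ℕ, 0 < n → q ^ n ≠ 1)
    (h : IsQDivisionRing k (q : k) x y) : compareEquiv hq h (QDiv.x k q) = x :=
  lift_x hq _ _ (ne_zero_left h) (ne_zero_right h) h.1

theorem compareEquiv_y (hq : ∀ n : ℕ, 0 < n → q ^ n ≠ 1)
    (h : IsQDivisionRing k (q : k) x y) : compareEquiv hq h (QDiv.y k q) = y :=
  lift_y hq _ _ (ne_zero_left h) (ne_zero_right h) h.1

/-- The automorphism of `D`. -/
noncomputable def autD (hq : ∀ n : ℕ, 0 < n → q ^ n ≠ 1)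
    (h : IsQDivisionRing k (q : k) x y) : D ≃ₐ[k] D :=
  AlgEquiv.autCongr (compareEquiv hq h) (piAut hq)

theorem autD_apply (hq : ∀ n : ℕ, 0 < n → q ^ n ≠ 1)
    (h : IsQDivisionRing k (q : k) x y) (e : QDiv k q) :
    autD hq h (compareEquiv hq h e) = compareEquiv hq h (piAut hq e) := by
  change compareEquiv hq h (piAut hq ((compareEquiv hq h).symm (compareEquiv hq h e))) = _
  rw [AlgEquiv.symm_apply_apply]

theorem autD_x (hq : ∀ n : ℕ, 0 < n → q ^ n ≠ 1)
    (h : IsQDivisionRing k (q : k) x y) : autD hq h x = y := by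
  have h0 := autD_apply hq h (QDiv.x k q)
  rw [compareEquiv_x, piAut_apply, phi_x, compareEquiv_y] at h0
  exact h0

theorem autD_y (hq : ∀ n : ℕ, 0 < n → q ^ n ≠ 1)
    (h : IsQDivisionRing k (q : k) x y) :
    autD hq h y = x⁻¹ * (y + algebraMap k D ((q : k)⁻¹)) := by
  have h0 := autD_apply hq h (QDiv.y k q)
  rw [compareEquiv_y, piAut_apply, phi_y, a2, map_mul, map_inv₀, map_add, AlgEquiv.commutes,
    compareEquiv_x, compareEquiv_y, Units.val_inv_eq_inv_val] at h0
  exact h0

theorem autD_unique (hq : ∀ n : ℕ, 0 < n → q ^ n ≠ 1)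
    (h : IsQDivisionRing k (q : k) x y) (π' : D ≃ₐ[k] D) (h1 : π' x = y)
    (h2 : π' y = x⁻¹ * (y + algebraMap k D ((q : k)⁻¹))) : π' = autD hq h := by
  have h3 : (π' : D →ₐ[k] D).comp (compareHom hq h) =
      (autD hq h : D →ₐ[k] D).comp (compareHom hq h) := by
    apply QDiv.algHom_ext
    · change π' (compareEquiv hq h (QDiv.x k q)) = autD hq h (compareEquiv hq h (QDiv.x k q))
      rw [compareEquiv_x, h1, autD_x]
    · change π' (compareEquiv hq h (QDiv.y k q)) = autD hq h (compareEquiv hq h (QDiv.y k q))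
      rw [compareEquiv_y, h2, autD_y]
  apply AlgEquiv.ext
  intro d
  obtain ⟨e, rfl⟩ := (compareHom_bijective hq h).2 d
  exact AlgHom.congr_fun h3 e

theorem orderOf_autD (hq : ∀ n : ℕ, 0 < n → q ^ n ≠ 1)
    (h : IsQDivisionRing k (q : k) x y) : orderOf (autD hq h) = 5 := by
  rw [autD]
  exact (MulEquiv.orderOf_eq (AlgEquiv.autCongr (compareEquiv hq h)) (piAut hq)).trans
    (orderOf_piAut hq)

theorem nonempty_iso (hq : ∀ n : ℕ, 0 < n → q ^ n ≠ 1)
    (h : IsQDivisionRing k (q : k) x y) : Nonempty (fixedRing (autD hq h) ≃ₐ[k] D) := by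
  obtain ⟨f⟩ := Lyness.main (q := q) (π := autD hq h)
    (a := fun i => compareEquiv hq h (orb k q i)) hq
    (fun i => by rw [autD_apply, piAut_orb])
    (by
      have := congrArg (compareEquiv hq h) (y_mul_x (k := k) (q := q))
      rw [map_mul, map_smul, map_mul] at this
      exact this)
    (by
      have := congrArg (compareEquiv hq h) (x_mul_a2 (k := k) (q := q))
      rw [map_mul, map_add, map_smul, map_one] at this
      exact this)
    (by
      have := congrArg (compareEquiv hq h) (a2_mul_x (k := k) (q := q))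
      rw [map_mul, map_smul, map_add, map_one] at this
      exact this)
    (by
      intro c hc
      have h1 := orb_indep (k := k) (q := q) (fun i => (compareEquiv hq h).symm (c i)) (by
        intro i
        have h2 := congrArg (compareEquiv hq h).symm (hc i)
        rw [map_sum, map_zero] at h2
        rw [← h2]
        refine Finset.sum_congr rfl fun m _ => ?_
        rw [map_mul, AlgEquiv.symm_apply_apply])
      funext i
      have h3 := congrFun h1 i
      simp only [Pi.zero_apply] at h3 ⊢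
      exact (map_eq_zero_iff _ (compareEquiv hq h).symm.injective).mp h3)
    (by
      intro d
      obtain ⟨r, hr, s, hs, hs0, rfl⟩ := h.2.2 d
      have e0 : compareEquiv hq h (orb k q 0) = x := compareEquiv_x hq h
      have e1 : compareEquiv hq h (orb k q 1) = y := compareEquiv_y hq h
      simp only [e0, e1]
      exact ⟨s, hs, r, hr, hs0, by rw [← mul_assoc, mul_inv_cancel₀ hs0, one_mul]⟩)
  have g : fixedRing (autD hq h) = Lyness.fixedSubalgebra (autD hq h) := by
    ext d
    exact Iff.rfl
  rw [g]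
  exact ⟨f.symm.trans (compareEquiv hq h)⟩

end Transfer

/-- **The fixed ring of the order five automorphism.** Let `k` be any field and let `q` be a nonzero
element of `k` that is not a root of unity. The division ring of fractions of the quantum plane
exists, and for each such division ring `D = k_q(x,y)` there is exactly one `k`-algebra automorphism
`π` of `D` with `π x = y` and `π y = x⁻¹ (y + q⁻¹)`; it has order `5`, and the fixed ring `D^π` is
isomorphic to `D` as a `k`-algebra. -/
theorem result (k : Type u) [Field k] (q : k) (hq0 : q ≠ 0) (hq : ∀ n : ℕ, 0 < n → q ^ n ≠ 1) :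
    (∃ (D : Type u) (_ : DivisionRing D) (_ : Algebra k D) (x y : D), IsQDivisionRing k q x y) ∧
    ∀ (D : Type v) [DivisionRing D] [Algebra k D] (x y : D), IsQDivisionRing k q x y →
      ∃ π : D ≃ₐ[k] D,
        π x = y ∧ π y = x⁻¹ * (y + algebraMap k D q⁻¹) ∧
        (∀ π' : D ≃ₐ[k] D, π' x = y → π' y = x⁻¹ * (y + algebraMap k D q⁻¹) → π' = π) ∧
        orderOf π = 5 ∧
        Nonempty (fixedRing π ≃ₐ[k] D) := by
  obtain ⟨q, rfl⟩ : ∃ q' : kˣ, (q' : k) = q := ⟨Units.mk0 q hq0, rfl⟩
  have hq' : ∀ n : ℕ, 0 < n → q ^ n ≠ 1 := by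
    intro n hn h
    exact hq n hn (by rw [← Units.val_pow_eq_pow_val, h, Units.val_one])
  refine ⟨⟨Pool.Agent.Helper42.QDiv k q, inferInstance, inferInstance, _, _,
    isQDivisionRing_QDiv⟩, ?_⟩
  intro D _ _ x y h
  exact ⟨autD hq' h, autD_x hq' h, autD_y hq' h, fun π' h1 h2 => autD_unique hq' h π' h1 h2,
    orderOf_autD hq' h, nonempty_iso hq' h⟩

end Pool.Agent.Results.MP_fd4dc8_al.FixedRingIso
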